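import Pool.Agent.V11257.Cs2
import Pool.Agent.V11257.Zt9

/-!
# A model of ZF with a zero-dimensional subspace of the real line that is not N-compact

The model is the first model of Cohen. The space is the open unit interval without the set of the
real numbers that correspond to the Cohen reals of the model. Every continuous function from the
space to the set of the natural numbers is constant on an interval to the left of each of the
removed points.
-/

namespace Pool.Agent.Results.MP_1eff47_lc.RealSubNotNCompact

open FirstOrder FirstOrder.Language
open Pool.Agent.Helper672.Plain (LSet Mem El)
open Pool.Agent.H635Amen (ZF IsReals)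
open Pool.Agent.V11246 (IsT1 IsZeroDim IsNCompact)
open Pool.Agent.V11257C
open Pool.Agent.V11257Z (exists_of_forall)

universe u

/-- There is a model of ZF (and for every model of ZF there is one in the same universe) in which
some subspace of the real line is zero-dimensional and not N-compact. -/
theorem result : (∃ (N : Type 1) (_ : LSet.Structure N), ZF N ∧ RealNotN N) ∧
    ∀ (M : Type u) [LSet.Structure M], ZF M → ∃ (N : Type u) (_ : LSet.Structure N),
      ZF N ∧ RealNotN N :=
  ⟨exists_of_forall fun M _ hM => exists_realNotN M hM, fun M _ hM => exists_realNotN M hM⟩

end Pool.Agent.Results.MP_1eff47_lc.RealSubNotNCompact
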